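import Mathlib
import Pool.Agent.Run7.h879.BP.Rank

/-!
# Parshin's conjecture in each single weight for `A × Z`, for almost all abelian varieties `A`

Let `g i` (`i` in a finite set `I`) be positive integers, `r` an integer smaller than all the `g i`
and `E` a number field. For a prime power `q` let `S i` be the set of the characteristic polynomials
of Frobenius of the ordinary abelian varieties of dimension `g i` over the field with `q` elements,
or of all abelian varieties of dimension `g i`, or any set in between. By Weil, Honda and Tate its
elements correspond to the isogeny classes, the first set contains `ordinaryWeilPolys q (g i)`, and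
the second one is contained in `weilPolys q (g i)`.

For all families `f i` in `S i` with the exception of a proportion `O (q ^ (-1 / 6) log q)`, the
constant depending only on `g` and `E`, the following holds (`ParshinForRankOver`) for all `s > 0`,
`Q = q ^ s`, all abelian varieties `A` over the field with `Q` elements which are isogenous to
products of powers of abelian varieties coming from the field with `q` elements, with characteristic
polynomials `f i`, and **all** smooth projective varieties `Z` over the field with `Q` elements such
that

* the eigenvalues of Frobenius on the cohomology of `Z` and their conjugates generate a group of rank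
  at most `r` modulo the group of the numbers with a power in `E`;
* homologically trivial self-correspondences of degree zero of `A × Z` are nilpotent, for instance
  the motive of `Z` is finite-dimensional in the sense of Kimura and O'Sullivan.

For every integer `n` the statement `P^n` for `A × Z` - **the group** `H^i(A × Z, ℤ(n))` **is torsion
for all** `i ≠ 2 n` - **holds if and only if the statements** `P^m` **with** `n - dim A ≤ m ≤ n`
**hold for** `Z`.

So `P^n(A × Z)` follows from `P^2(Z), …, P^n(Z)` (as `P^0(Z)` and `P^1(Z)` are known); `P^2(A × Z)` is
equivalent to `P^2(Z)`; for `dim A ≤ n - 2` only the weights `≥ n - dim A` matter. If `Z` is a point or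
a curve then `P^n(A × Z)` holds for all `n` (theorems of Quillen and Harder on `Z`): Parshin's
conjecture is true for almost all abelian varieties and their products with these `Z`.

The framework (`TheoryData`, `IsChow`, `IsWeil`, `MotivicData`, `IsSituation`) is the one of helper492
and helper484. The groups `H^i(X, ℤ(n))` are given by `IsMotivicCohomology`: they vanish for
`i > 2 n`, and `H^(2 n - m)(X, ℤ(n))` maps to `CH^n(X, m)_ℚ` for `m > 0`, with torsion kernel and
cokernel; here `CH^n(X, m)_ℚ` is the value of a theory `T m` on which correspondences act.

The idea of the proof: the sieve of helper521 and helper484 shows that for almost all families the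
generalized eigenvectors of Frobenius in the cohomology of `A × Z` for the eigenvalues `Q ^ i` are
sums of products of products of divisors on `A` and of classes on `Z`. With the nilpotence this gives
the Kunneth formula `CH^n(A × Z, m)_ℚ = ⨁ D j × CH^(n - c j)(Z, m)_ℚ` for all `m` with the same
classes `D j`, of codimension `c j` (helper484, after Soule, Geisser and Kahn); and each codimension
between `0` and `dim A` occurs (helper154).
-/

set_option autoImplicit false

namespace Pool.Agent.Results.MP_de59b4_ag.AlmostAllAbelianTimes

open Polynomial Pool.Agent.W521.Descent Pool.Agent.W521.Count Pool.Agent.W484.TB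
  Pool.Agent.W484.CK Run7.h879.BP

/-- `weilPolys q g` is the set of monic integral polynomials of degree `2 g` with constant term
`q ^ g` and all roots of absolute value `√q`; `ordinaryWeilPolys q g` is the subset of those
whose coefficient of index `g` is prime to `q`. -/
theorem result {I : Type} [Fintype I] (g : I → ℕ) (r : ℕ) (hr : ∀ i, r < g i)
    (E : IntermediateField ℚ ℂ) [FiniteDimensional ℚ E] :
    ∃ C : ℝ, ∀ q : ℕ, IsPrimePow q → ∀ S : I → Set ℤ[X],
      (∀ i, ordinaryWeilPolys q (g i) ⊆ S i ∧ S i ⊆ weilPolys q (g i)) →
      (∀ i, (S i).Finite ∧ (S i).Nonempty) ∧
      ({f : I → ℤ[X] | (∀ i, f i ∈ S i) ∧ ¬ ParshinForRankOver E q r f}.ncard : ℝ) ≤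
        C * (Real.log q * (q : ℝ) ^ (-(1 / 6) : ℝ)) * ∏ i, ((S i).ncard : ℝ) :=
  count_of_goodU (splitPrimes E) (dense_splitPrimes E) g
    (fun i => (Nat.zero_le r).trans_lt (hr i)) (fun q f => ParshinForRankOver E q r f)
    fun _ hq x hx => parshinForRankOver_of_good g E hq.one_lt r hr x hx

end Pool.Agent.Results.MP_de59b4_ag.AlmostAllAbelianTimes
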