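import Mathlib
import Pool.Agent.Run7.h370.MR.Main
import Pool.Agent.Run7.h879.BP.Times

/-!
# Parshin's conjecture `P ^ n` for `A × Z`, for abelian varieties whose slopes are nondegenerate modulo
a prime

Let `E k` be finitely many CM fields and `π k i`, `i : I k`, finitely many Weil numbers for `q = p ^ a`
in `E k`. The slope deviation of `π k i` is the function `dev p a (π k i) τ = 2 ord_p (τ (π k i)) - a` of
the embeddings `τ` of `E k` in the algebraic closure of `ℚ_p`; its values are `a (2 λ - 1)` for the
slopes `λ` of the abelian variety. Nothing is assumed about the Galois groups of the fields. Different
fields are flipped (`FieldsFlipped`): for complex embeddings `φ` of `E k` and `ψ` of `E l`, `k ≠ l`,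
some automorphism of `ℂ` fixes one of them and maps the other one to its complex conjugate. This is
no condition if there is only one field, and it is true if the normal closures of the fields are
linearly disjoint. There are three conditions on the slopes:

1. (`SlopesModPrime`) For each `k` let `r k` be a prime number. The slope deviations of the `π k i`,
  `i : I k`, are the multiples `κ * u i` of one number `κ ≠ 0`, with integral functions `u i`, and there
  is a group `H` of automorphisms of the algebraic closure of `ℚ_p` each of which acts on the set of
  the embeddings `τ` of `E k` with an order that is a power of `r k` (so this is any subgroup of
  `r k`-power order of the Galois group of the normal closure, for instance a Sylow subgroup, with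
  any orbits), such that the functions `u i` are nondegenerate modulo `r k` (`NondegenerateMod`): if
  `b i` are functions on the embeddings with values in `ℤ / r k`, invariant under `H`, with
  `b i (conj τ) = - b i τ` and `∑ i, ∑ τ, b i τ * u i (g τ) = 0` for all automorphisms `g`, the sum
  over representatives `τ` of the pairs of conjugate embeddings, then all `b i` are zero. So for each
  pair of conjugate orbits of `H` there is one unknown number modulo `r k` for each `i`, and the
  condition is that the linear equations for them, one for each `g`, have only the trivial solution.
2. (`TwoAdicSlopes`) There is one Weil number `π k` for each `k`, and `E k` is an extension of 2-power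
  degree of a field `R k` whose normal closure over `ℚ` has odd degree. For an embedding `σ` of `R k`
  let `N σ` (`oddPairs`) be the number of the pairs of conjugate embeddings `τ` over `σ` with odd
  `u τ`. The condition is that there is no function `β ≠ 0` with values modulo `2` such that
  `∑ σ, β σ * N (g σ) = 0` for all automorphisms `g`.
3. (`OneOddEmbedding`) The same, where `N σ` is odd for exactly one embedding `σ` of `R k`. For
  instance, let `R` be cyclic of degree three and `[E : R] = 2 ^ (t + 1)`, and let all slopes of the
  abelian variety, of dimension `3 * 2 ^ t`, be `0`, `1 / 2` or `1`: then `N σ` is the number of the
  embeddings over `σ` with slope `0`, so the `p`-rank is the sum of the three numbers `N σ`, and the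
  condition is that exactly one of them is odd.

The conclusion. Let `f i` be monic polynomials whose complex roots are conjugates of the Weil numbers
(`IsPolyOf`), for instance the characteristic polynomials of Frobenius of the abelian varieties over
the field with `q` elements in their isogeny classes. Let `A` be an abelian variety over the field with
`Q = q ^ s` elements which is isogenous to a product of powers of abelian varieties coming from the
field with `q` elements, with characteristic polynomials `f i`. Let `Z` be **any** smooth
projective variety over the field with `Q` elements such that the eigenvalues `ρ` of Frobenius on the
cohomology of `Z` and their conjugates are independent of the fields `E k` (`Independent`): for each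
complex embedding `ψ` of `E k` some automorphism of `ℂ` fixes a power of `ρ` and is the complex
conjugation on `ψ (E k)`. This is so if a power of `ρ` lies in a field linearly disjoint from the
normal closures of the `E k`, or in a totally real field.
Suppose moreover that homologically trivial self-correspondences of degree zero of `A × Z` are
nilpotent, for instance that the motive of `Z` is finite-dimensional in the sense of Kimura and
O'Sullivan.
Then **for every `n` the rational motivic cohomology groups `H^i(A × Z, ℚ(n))`, `i ≠ 2 n`, are zero if
and only if `H^i(Z, ℚ(m)) = 0` for all `i ≠ 2 m` and all `m` with `n - dim A ≤ m ≤ n`** (`ParshinTimes`: the
statement `P ^ n` for `A × Z`). The motivic cohomology is any family of theories on which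
correspondences act, with Frobenius acting on `H^i(-, ℚ(n))` as the multiplication by `q ^ n`. The
derivation from the criterion is helper879's library (Run7/h879/BP), based on the starting files
(Y1.CT). The framework (`TheoryData`, `IsChow`, `IsWeil`) is the one of helper492 in the
starting files: the Chow groups with their pull-backs, push-forwards and products, and a Weil
cohomology theory with algebraically closed coefficient field.

The starting files contain criteria of this kind for one Weil number in each field: `PrimePowerCentre`
and `OddClasses` of MP_0d42ed_ag (where the `r`-group is transitive on the pairs of conjugate
embeddings; so the third part is not new for `R = ℚ` as far as the criterion is concerned),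
`OneFrobeniusSignature` and `FrobeniusPrimePower` (odd `r`, transitive on the embeddings over those of
an imaginary quadratic field), `OneFrobeniusTowers` (towers over CM fields, odd `r`). New here are
arbitrary groups of prime power order with several orbits, several Weil numbers in the same field, and
the 2-adic towers. The conclusion is derived from the criterion by theorems of the starting files.

The proof. Suppose that a product of powers `φ (π k i) ^ n (k, i, φ)` is a power of `q`, up to a root of
unity. The `p`-adic valuations of its images under all automorphisms give relations, for each field
separately since the fields are flipped: `∑ i, ∑ φ, c i φ * u i (g φ) = 0` for all `g`, where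
`c i φ = n i φ - n i (conj φ)`. If `c ≠ 0` we divide it by the greatest common divisor of its values and
reduce modulo `r`. The relations have to be restricted to representatives of the pairs of conjugate
embeddings before the reduction (the restricted relations are still true, as the two halves of the sum
are equal; for `r = 2` this is essential, since modulo `2` there are no signs). So the space of the odd
functions modulo `r` with all the relations is not zero. Its number of elements is a power of `r`, the
group `H` acts on it through a group of `r`-power order, so it contains a nonzero function which is
invariant under `H`, a contradiction. So the angle rank is maximal (`MaximalAngleRank`). For a 2-adic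
tower one takes for `H` the preimage of a Sylow 2-subgroup of the Galois group: it acts trivially on
the embeddings of `R`, since the normal closure of `R` has odd degree, and transitively on the
embeddings of `E` over each of them. The complex conjugation is the identity on `R`.
-/

set_option autoImplicit false

namespace Pool.Agent.Results.MP_de59b4_ag.SlopesModPrime

open Pool.Agent.Y1.CT Run7.h879.BP Run7.h370.MR

/-- **Parshin's conjecture `P ^ n` for `A × Z` is equivalent to `P ^ m` for `Z`, `n - dim A ≤ m ≤ n`, for
the abelian varieties `A` whose slopes are nondegenerate modulo a prime number, and all independent
varieties `Z` with nilpotent homologically trivial correspondences.** -/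
theorem result :
    HoldsForModular (fun I K _ => ParshinTimes (I := I) K) ∧
    HoldsForTwoAdic (fun I K _ => ParshinTimes (I := I) K) ∧
    HoldsForOneOdd (fun I K _ => ParshinTimes (I := I) K) := by
  have h1 : HoldsForTwoAdic (fun I K _ => ParshinTimes (I := I) K) := holdsForTwoAdic (by
    intro I K _ q f hq hw hR
    exact parshinTimes hq (noRel_ind hR))
  refine ⟨holdsForModular ?_, h1, holdsForOneOdd h1⟩
  intro I K _ q f hq hw hR
  exact parshinTimes hq (noRel_ind hR)

end Pool.Agent.Results.MP_de59b4_ag.SlopesModPrime
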